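import Pool.Agent.PFC.StmtsB3

set_option autoImplicit false

/-!
# Squad PFC, block B3, rows SST and AVG
-/

open scoped BigOperators

noncomputable section

namespace Pool.Agent.PFC.H92

/-- averaging of an invariant complement -/
theorem avg : B3.AvgStmt := by
  intro L I E T _ _ _ _ _ y ρ η hE hcm U U' hUU hyU hyU' hρU
  classical
  obtain ⟨π, hπ⟩ : ∃ π : T →ₗ[L] T, π = U.projection U' hUU := ⟨_, rfl⟩
  have hπU : ∀ x, π x ∈ U := fun x => by rw [hπ]; exact Submodule.projection_apply_mem hUU x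
  have hπ1 : ∀ x ∈ U, π x = x := fun x hx => by
    rw [hπ]; exact Submodule.projection_apply_of_mem_left hUU hx
  have hπ0 : ∀ x ∈ U', π x = 0 := fun x hx => by
    rw [hπ]; exact (Submodule.projection_apply_eq_zero_iff hUU).2 hx
  have hπy : ∀ i x, π (y i x) = y i (π x) := by
    intro i x
    obtain ⟨u, hu, v, hv, rfl⟩ := Submodule.mem_sup.1 (hUU.sup_eq_top ▸ Submodule.mem_top (x := x))
    rw [map_add, map_add, map_add, map_add, hπ1 _ (hyU i u hu), hπ0 _ (hyU' i v hv), hπ1 u hu,
      hπ0 v hv, map_zero]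
  obtain ⟨P, hP⟩ : ∃ P : T →ₗ[L] T, P = (Fintype.card E : L)⁻¹ • ∑ e, ρ e * π * ρ e⁻¹ := ⟨_, rfl⟩
  have hPx : ∀ x, P x = (Fintype.card E : L)⁻¹ • ∑ e, ρ e (π (ρ e⁻¹ x)) := by
    intro x
    rw [hP, LinearMap.smul_apply, LinearMap.sum_apply]
    rfl
  have hPU : ∀ x, P x ∈ U := by
    intro x
    rw [hPx]
    exact U.smul_mem _ (U.sum_mem fun e _ => hρU e _ (hπU _))
  have hρρ : ∀ e x, ρ e (ρ e⁻¹ x) = x := by
    intro e x
    rw [← Module.End.mul_apply, ← map_mul, mul_inv_cancel, map_one, Module.End.one_apply]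
  have hP1 : ∀ x ∈ U, P x = x := by
    intro x hx
    rw [hPx]
    have h1 : ∀ e ∈ (Finset.univ : Finset E), ρ e (π (ρ e⁻¹ x)) = x := by
      intro e _
      rw [hπ1 _ (hρU e⁻¹ x hx), hρρ]
    rw [Finset.sum_congr rfl h1, Finset.sum_const, Finset.card_univ, ← Nat.cast_smul_eq_nsmul L,
      smul_smul, inv_mul_cancel₀ hE, one_smul]
  have hcm' : ∀ i e x, ρ e (y i x) = (η i e : L) • y i (ρ e x) := by
    intro i e x
    have h1 := congrArg (fun f : T →ₗ[L] T => f x) (hcm i e)
    exact h1
  have hPy : ∀ i x, P (y i x) = y i (P x) := by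
    intro i x
    rw [hPx, hPx, map_smul, map_sum]
    congr 1
    refine Finset.sum_congr rfl fun e _ => ?_
    rw [hcm', map_smul, map_smul, hπy, hcm', smul_smul, ← Units.val_mul, ← map_mul,
      inv_mul_cancel, map_one, Units.val_one, one_smul]
  have hPρ : ∀ f x, P (ρ f x) = ρ f (P x) := by
    intro f x
    rw [hPx, hPx, map_smul, map_sum]
    congr 1
    refine (Fintype.sum_bijective (fun e => f * e) (Group.mulLeft_bijective f) _ _ fun e => ?_).symm
    rw [← Module.End.mul_apply, ← map_mul]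
    congr 2
    rw [← Module.End.mul_apply, ← map_mul, mul_inv_rev, inv_mul_cancel_right]
  have hproj : LinearMap.IsProj U P := ⟨hPU, hP1⟩
  refine ⟨LinearMap.ker P, hproj.isCompl, fun i u hu => ?_, fun e u hu => ?_⟩
  · rw [LinearMap.mem_ker] at hu ⊢
    rw [hPy, hu, map_zero]
  · rw [LinearMap.mem_ker] at hu ⊢
    rw [hPρ, hu, map_zero]

/-- commuting operators which are scalar multiples of `ℓ`-th powers act semisimply -/
theorem sst (hred : B3.RedStmt) : B3.SstStmt := by
  intro ℓ _ L I T _ _ _ _ _ y hcomm hz U hU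
  classical
  let D := Algebra.adjoin L (Set.range y)
  let cD : CommRing D := Algebra.adjoinCommRingOfComm L (by
    rintro _ ⟨i, rfl⟩ _ ⟨j, rfl⟩
    exact hcomm i j)
  have hfin : Module.Finite L D := inferInstance
  have hmulc : ∀ a b : D, a * b = b * a := fun a b => cD.mul_comm a b
  -- the span of the powers
  obtain ⟨S, hS⟩ : ∃ S : Submodule L D, S = Submodule.span L (Set.range fun d : D => d ^ ℓ) :=
    ⟨_, rfl⟩
  have hS1 : (1 : D) ∈ S := by
    rw [hS]
    exact Submodule.subset_span ⟨1, one_pow ℓ⟩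
  have hSm : ∀ a ∈ S, ∀ b ∈ S, a * b ∈ S := by
    intro a ha b hb
    rw [hS] at ha hb ⊢
    induction ha, hb using Submodule.span_induction₂ with
    | mem_mem x y hx hy =>
      obtain ⟨x, rfl⟩ := hx
      obtain ⟨y, rfl⟩ := hy
      refine Submodule.subset_span ⟨x * y, ?_⟩
      exact mul_pow x y ℓ
    | zero_left y hy => rw [zero_mul]; exact Submodule.zero_mem _
    | zero_right x hx => rw [mul_zero]; exact Submodule.zero_mem _
    | add_left x y z hx hy hz h1 h2 => rw [add_mul]; exact Submodule.add_mem _ h1 h2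
    | add_right x y z hx hy hz h1 h2 => rw [mul_add]; exact Submodule.add_mem _ h1 h2
    | smul_left r x y hx hy h => rw [smul_mul_assoc]; exact Submodule.smul_mem _ _ h
    | smul_right r x y hx hy h => rw [mul_smul_comm]; exact Submodule.smul_mem _ _ h
  have hSy : ∀ i, (⟨y i, Algebra.subset_adjoin ⟨i, rfl⟩⟩ : D) ∈ S := by
    intro i
    obtain ⟨z, hzm, s, hs⟩ := hz i
    have h1 : (⟨y i, Algebra.subset_adjoin ⟨i, rfl⟩⟩ : D) = s • (⟨z, hzm⟩ : D) ^ ℓ := by
      apply Subtype.ext
      exact hs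
    rw [h1, hS]
    exact Submodule.smul_mem _ _ (Submodule.subset_span ⟨_, rfl⟩)
  have hStop : Submodule.span L (Set.range fun d : D => d ^ ℓ) = ⊤ := by
    rw [← hS, eq_top_iff]
    rintro ⟨x, hx⟩ -
    induction hx using Algebra.adjoin_induction with
    | mem x hx =>
      obtain ⟨i, rfl⟩ := hx
      exact hSy i
    | algebraMap r =>
      have h1 : (⟨algebraMap L (Module.End L T) r, Subalgebra.algebraMap_mem _ r⟩ : D) =
          r • (1 : D) := by
        apply Subtype.ext
        exact Algebra.algebraMap_eq_smul_one r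
      rw [h1]
      exact S.smul_mem r hS1
    | add x y hx hy h1 h2 => exact S.add_mem h1 h2
    | mul x y hx hy h1 h2 => exact hSm _ h1 _ h2
  have hR : IsReduced D := hred ℓ L D hStop
  have hA : IsArtinianRing D := IsArtinianRing.of_finite L D
  have hss : IsSemisimpleRing D := IsArtinianRing.isSemisimpleRing_of_isReduced D
  -- the submodule over `D`
  have hUD : ∀ d : D, ∀ u ∈ U, (d : Module.End L T) u ∈ U := by
    rintro ⟨x, hx⟩ u hu
    induction hx using Algebra.adjoin_induction generalizing u with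
    | mem x hx =>
      obtain ⟨i, rfl⟩ := hx
      exact hU i u hu
    | algebraMap r => exact U.smul_mem r hu
    | add x y hx hy h1 h2 => exact U.add_mem (h1 u hu) (h2 u hu)
    | mul x y hx hy h1 h2 => exact h1 _ (h2 u hu)
  let UD : Submodule D T :=
    { carrier := U
      add_mem' := fun ha hb => U.add_mem ha hb
      zero_mem' := U.zero_mem
      smul_mem' := fun d u hu => hUD d u hu }
  have hsm : IsSemisimpleModule D T := inferInstance
  obtain ⟨WD, hWD⟩ := exists_isCompl UD
  let W : Submodule L T :=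
    { carrier := WD
      add_mem' := fun ha hb => WD.add_mem ha hb
      zero_mem' := WD.zero_mem
      smul_mem' := fun r u hu => by
        have h1 := WD.smul_mem (algebraMap L D r) hu
        exact h1 }
  refine ⟨W, ?_, fun i u hu => ?_⟩
  · rw [isCompl_iff, Submodule.disjoint_def, codisjoint_iff]
    rw [isCompl_iff, Submodule.disjoint_def, codisjoint_iff] at hWD
    refine ⟨fun x hx hx' => hWD.1 x hx hx', ?_⟩
    rw [eq_top_iff]
    intro x _
    have h1 : x ∈ UD ⊔ WD := by
      rw [hWD.2]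
      exact Submodule.mem_top
    obtain ⟨u, hu, v, hv, rfl⟩ := Submodule.mem_sup.1 h1
    exact Submodule.add_mem_sup hu hv
  · have h1 := WD.smul_mem (⟨y i, Algebra.subset_adjoin ⟨i, rfl⟩⟩ : D) hu
    exact h1

end Pool.Agent.PFC.H92
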