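import Pool.Agent.Helper92_PFC.QFR

set_option autoImplicit false

/-!
# Squad PFC, block B5a, row QFM
-/

open scoped BigOperators

noncomputable section

namespace Pool.Agent.PFC.H92

open MulAction

/-- an invariant functional kills the Brauer kernel -/
theorem lam_BK {ℓ : ℕ} [Fact ℓ.Prime] {F V A : Type} [Field F] [CharP F ℓ] [CommGroup V]
    [Finite V] [Ring A] [Algebra F A] (α : V →* A) (lam : A →ₗ[F] F)
    (hsym : ∀ a b, lam (a * b) = lam (b * a)) (Q : Subgroup V) (hQ : IsPGroup ℓ Q) (m : A)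
    (hm : m ∈ BK (cj F α) Q) : lam m = 0 := by
  classical
  unfold BK at hm
  induction hm using Submodule.span_induction with
  | mem n hn =>
    obtain ⟨P', S, x, hlt, hS, hx, rfl⟩ := hn
    have h1 : ∀ y ∈ S, lam (cj F α y x) = lam x := by
      intro y _
      rw [cj_apply, hsym, mul_assoc, ← map_mul, inv_mul_cancel, map_one, mul_one]
    rw [map_sum, Finset.sum_congr rfl h1, Finset.sum_const]
    have hdvd : ℓ ∣ S.card := by
      have hc := card_tv P' Q hlt.le S hS
      obtain ⟨k, hk⟩ := (IsPGroup.iff_card).1 hQ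
      have hdiv : S.card ∣ ℓ ^ k := ⟨_, by rw [← hk]; exact hc.symm⟩
      obtain ⟨j, -, hj⟩ := (Nat.dvd_prime_pow (Fact.out : ℓ.Prime)).1 hdiv
      rcases Nat.eq_zero_or_pos j with h0 | h0
      · exfalso
        rw [h0, pow_zero] at hj
        rw [hj, one_mul] at hc
        exact hlt.ne (Subgroup.eq_of_le_of_card_ge hlt.le hc.ge)
      · rw [hj]
        exact dvd_pow_self ℓ h0.ne'
    obtain ⟨d, hd⟩ := hdvd
    rw [hd, mul_smul, nsmul_eq_mul, CharP.cast_eq_zero, zero_mul]
  | zero => exact map_zero _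
  | add a b _ _ ha hb => rw [map_add, ha, hb, add_zero]
  | smul r a _ ha => rw [map_smul, ha, smul_zero]

theorem mem_Cz {F V A : Type} [Field F] [CommGroup V] [Ring A] [Algebra F A] (α : V →* A)
    (Q : Subgroup V) (a : A) : a ∈ Cz F α Q ↔ ∀ u ∈ Q, α u * a = a * α u := by
  rw [Cz, Subalgebra.mem_centralizer_iff]
  constructor
  · intro h u hu
    exact h _ ⟨u, hu, rfl⟩
  · rintro h _ ⟨u, hu, rfl⟩
    exact h u hu

theorem mem_Fx_cj {F V A : Type} [Field F] [CommGroup V] [Ring A] [Algebra F A] (α : V →* A)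
    (Q : Subgroup V) (a : A) : a ∈ Fx (cj F α) Q ↔ a ∈ Cz F α Q := by
  rw [mem_Cz, mem_Fx]
  have h1 : ∀ u : V, cj F α u a = a ↔ α u * a = a * α u := by
    intro u
    rw [cj_apply]
    constructor
    · intro h
      calc α u * a = α u * (a * α u⁻¹) * α u := by
            rw [mul_assoc, mul_assoc, ← map_mul, inv_mul_cancel, map_one, mul_one]
        _ = a * α u := by rw [h]
    · intro h
      rw [← mul_assoc, h, mul_assoc, ← map_mul, mul_inv_cancel, map_one, mul_one]
  constructor
  · intro h u hu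
    exact (h1 u).1 (h u hu)
  · intro h u hu
    exact (h1 u).2 (h u hu)

theorem qfm : B5a.QfmStmt := by
  intro _ ℓ _ F V A B _ _ _ _ _ _ _ _ _ α Q q X lam hV hq hPS hfrm
  classical
  obtain ⟨hsym, hnd, hnz⟩ := hfrm
  have hQ : IsPGroup ℓ Q := hV.to_subgroup Q
  -- the new form
  have hker : ∀ a a' : Cz F α Q, q a = q a' → lam (a : A) = lam (a' : A) := by
    intro a a' h
    have h1 : q (a - a') = 0 := by rw [map_sub, h, sub_self]
    have h2 := lam_BK (ℓ := ℓ) α lam hsym Q hQ _ ((hq.ker _).1 h1)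
    have h3 : ((a - a' : Cz F α Q) : A) = (a : A) - (a' : A) := rfl
    rw [h3, map_sub, sub_eq_zero] at h2
    exact h2
  let s : B → Cz F α Q := Function.surjInv hq.sur
  have hs : ∀ b, q (s b) = b := Function.surjInv_eq hq.sur
  let lam' : B →ₗ[F] F :=
    { toFun := fun b => lam (s b : A)
      map_add' := fun b b' => by
        have h1 : q (s (b + b')) = q (s b + s b') := by rw [map_add, hs, hs, hs]
        rw [hker _ _ h1, ← map_add]
        rfl
      map_smul' := fun r b => by
        have h1 : q (s (r • b)) = q (r • s b) := by rw [map_smul, hs, hs]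
        rw [hker _ _ h1, RingHom.id_apply, ← map_smul]
        rfl }
  have hlam' : ∀ a : Cz F α Q, lam' (q a) = lam (a : A) := by
    intro a
    exact hker _ _ (hs (q a))
  refine ⟨lam', ?_, ?_, ?_⟩
  · intro x y
    obtain ⟨a, rfl⟩ := hq.sur x
    obtain ⟨b, rfl⟩ := hq.sur y
    rw [← map_mul, ← map_mul, hlam', hlam']
    exact hsym a b
  · intro x hx
    obtain ⟨a, rfl⟩ := hq.sur x
    have hab : ∀ b : Cz F α Q, lam ((a : A) * b) = 0 := by
      intro b
      have h1 := hx (q b)
      rw [← map_mul, hlam'] at h1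
      exact h1
    obtain ⟨Ω, hΩ, hact, b, c, hfr, hst⟩ := hPS
    rw [hq.ker, diag_iff (ℓ := ℓ) hfr Q hQ ((mem_Fx_cj α Q _).2 a.2)]
    intro ω hω
    -- the functional is given by an element
    let Φ : A →ₗ[F] Module.Dual F A :=
      { toFun := fun s => lam ∘ₗ LinearMap.mulLeft F s
        map_add' := fun s t => by
          ext x
          change lam ((s + t) * x) = lam (s * x) + lam (t * x)
          rw [add_mul, map_add]
        map_smul' := fun r s => by
          ext x
          change lam ((r • s) * x) = r • lam (s * x)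
          rw [smul_mul_assoc, map_smul] }
    have hΦ : ∀ s x, Φ s x = lam (s * x) := fun s x => rfl
    have hinj : Function.Injective Φ := by
      rw [injective_iff_map_eq_zero]
      intro s hs0
      apply hnd
      intro x
      rw [← hΦ, hs0]
      rfl
    have hsur : Function.Surjective Φ :=
      (LinearMap.injective_iff_surjective_of_finrank_eq_finrank
        (Subspace.dual_finrank_eq (K := F) (V := A)).symm).1 hinj
    obtain ⟨t, ht⟩ := hsur (c ω)
    have htx : ∀ x, c ω x = lam (t * x) := fun x => by rw [← ht]; rfl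
    have htC : t ∈ Cz F α Q := by
      rw [← mem_Fx_cj]
      intro u hu
      rw [← sub_eq_zero]
      apply hnd
      intro x
      have h1 := hfr.2.1 (u⁻¹, u⁻¹) ω x
      have h2 : ((u⁻¹, u⁻¹) : V × V) • ω = ω := hω u⁻¹ (Q.inv_mem hu)
      rw [h2, htx, htx, bi_apply] at h1
      rw [sub_mul, map_sub, ← h1, sub_eq_zero, cj_apply]
      have h3 : α u * (t * α u⁻¹) * x = α u * (t * (α u⁻¹ * x)) := by
        rw [mul_assoc, mul_assoc]
      rw [h3, hsym, inv_inv]
      congr 1
      simp only [mul_assoc]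
    rw [htx, hsym]
    exact hab ⟨t, htC⟩
  · have h1 : (∑ u, B5a.be F α Q q u) = q (∑ u, B5a.zin F α Q u) := by
      rw [map_sum]
      rfl
    rw [h1, hlam']
    have h2 : ((∑ u, B5a.zin F α Q u : Cz F α Q) : A) = ∑ u, α u := by
      rw [AddSubmonoidClass.coe_finsetSum]
      rfl
    rw [h2]
    exact hnz

end Pool.Agent.PFC.H92
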