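import Pool.Agent.PFC.StmtsB5c

set_option autoImplicit false

/-!
# Squad PFC, block B5c, row FAM
-/

open scoped BigOperators TensorProduct

noncomputable section

namespace Pool.Agent.PFC.H92

open Pool.Agent.PFC.B5a (zin)
open Pool.Agent.PFC.B5c (LoqOut TrbStmt ItwStmt FamStmt Fam bd sg)

theorem fam (hloq : LoqOut) (htrb : TrbStmt) (hitw : ItwStmt) (hpsr : PsrStmt) : FamStmt := by
  intro F V E A _ _ _ _ _ _ _ ℓ _ φ W α hctf hin
  classical
  have hp : Fact ℓ.Prime := ⟨hctf.pr⟩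
  choose n π hL using hin.lcq
  -- conjugation is the restriction to the diagonal
  have hcp : CP (bd F α) := by
    have h1 := hpsr F (V × V) V A (bi F α) ((MonoidHom.id V).prod (MonoidHom.id V)) _ hin.ps
    obtain ⟨Ω, i1, i2, b, c, hfr, hst⟩ := h1
    exact ⟨Ω, i1, i2, b, c, hfr, fun _ => trivial⟩
  obtain ⟨S, hS⟩ : ∃ S : Subgroup V → IA F V, ∀ (Q : Subgroup V) (h : ¬ Q ≤ W),
      S Q = B5c.mx (sg F α Q (π Q h)) := by
    refine ⟨fun Q => if h : ¬ Q ≤ W then B5c.mx (sg F α Q (π Q h)) else IA.one F V, fun Q h => ?_⟩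
    exact dif_pos h
  refine ⟨S, ?_, ?_, ?_, ?_⟩
  · intro Q h
    rw [hS Q h]
    exact ⟨n Q h, (hL Q h).pos, ⟨AlgEquiv.refl⟩⟩
  · intro Q h
    rw [hS Q h]
    exact (hloq F V E A ℓ φ W α Q (n Q h) (π Q h) hctf hin h (hL Q h)).1
  · intro Q h
    rw [hS Q h]
    obtain ⟨-, q, hq1, hq2, hq3⟩ := hloq F V E A ℓ φ W α Q (n Q h) (π Q h) hctf hin h (hL Q h)
    exact htrb ℓ F V (bd F α) ((B5c.mx (sg F α Q (π Q h))).tens (IA.gr F V)) Q q hctf.pg hcp
      hq1 hq2 hq3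
  · intro Q h e
    have h' : ¬ Q.map (φ e).toMonoidHom ≤ W := by
      intro hle
      apply h
      intro u hu
      have h1 : φ e u ∈ W := hle ⟨u, hu, rfl⟩
      have h2 := hctf.stab e⁻¹ _ h1
      rw [← MulAut.mul_apply, ← map_mul, inv_mul_cancel, map_one, MulAut.one_apply] at h2
      exact h2
    rw [hS Q h, hS _ h']
    obtain ⟨y, y', hy, hy', hyu⟩ := hin.uni e
    exact hitw F V A α (φ e) y y' Q (n Q h) (n _ h') (π Q h) (π _ h') hy hy' hyu (hL Q h)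
      (hL _ h')

end Pool.Agent.PFC.H92
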