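import Pool.Agent.PFC.StmtsB5c
import Pool.Agent.PFC.B4.Key

set_option autoImplicit false

/-!
# Squad PFC, block B5c, row FRC
-/

open scoped BigOperators TensorProduct

noncomputable section

namespace Pool.Agent.PFC.H92

open MulAction

/-- a functional which is invariant under conjugation kills the Brauer kernel -/
theorem inv_BK {ℓ : ℕ} [Fact ℓ.Prime] {F H M : Type} [Field F] [CharP F ℓ] [Group H] [Finite H]
    [AddCommGroup M] [Module F M] (ρ : H →* (M →ₗ[F] M)) (μ : M →ₗ[F] F) (Q : Subgroup H)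
    (hμ : ∀ y ∈ Q, ∀ x, μ (ρ y x) = μ x) (hQ : IsPGroup ℓ Q) (m : M)
    (hm : m ∈ BK ρ Q) : μ m = 0 := by
  classical
  unfold BK at hm
  induction hm using Submodule.span_induction with
  | mem n hn =>
    obtain ⟨P', S, x, hlt, hS, hx, rfl⟩ := hn
    have h1 : ∀ y ∈ S, μ (ρ y x) = μ x := fun y hy => hμ y (hS.1 y hy) x
    rw [map_sum, Finset.sum_congr rfl h1, Finset.sum_const]
    have hdvd : ℓ ∣ S.card := by
      have hc := card_tv P' Q hlt.le S hS
      obtain ⟨k, hk⟩ := (IsPGroup.iff_card).1 hQ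
      have hdiv : S.card ∣ ℓ ^ k := ⟨_, by rw [← hk]; exact hc.symm⟩
      obtain ⟨j, -, hj⟩ := (Nat.dvd_prime_pow (Fact.out : ℓ.Prime)).1 hdiv
      rcases Nat.eq_zero_or_pos j with h0 | h0
      · exfalso
        rw [h0, pow_zero] at hj
        rw [hj, one_mul] at hc
        exact hlt.ne (Subgroup.eq_of_le_of_card_ge hlt.le hc.ge)
      · rw [hj]
        exact dvd_pow_self ℓ h0.ne'
    obtain ⟨d, hd⟩ := hdvd
    rw [hd, mul_smul, nsmul_eq_mul, CharP.cast_eq_zero, zero_mul]
  | zero => exact map_zero _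
  | add a b _ _ ha hb => rw [map_add, ha, hb, add_zero]
  | smul r a _ ha => rw [map_smul, ha, smul_zero]

theorem frc : B5c.FrcStmt := by
  intro ℓ _ F V _ _ _ _ X Y j κ hV hcor hj lam hfrm
  classical
  obtain ⟨hsym, hnd, hnz⟩ := hfrm
  obtain ⟨hinj, hmul, hone, hran, hcom, hcov⟩ := hcor
  have hjj : j * j = j := by
    rw [← hone, ← hmul, one_mul]
  refine ⟨lam ∘ₗ κ, ?_, ?_, ?_⟩
  · intro a b
    rw [LinearMap.comp_apply, LinearMap.comp_apply, hmul, hmul, hsym]
  · intro a ha
    apply hinj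
    rw [map_zero]
    apply hnd
    intro x
    obtain ⟨b, hb⟩ := hran (j * x * j) (by rw [← mul_assoc, ← mul_assoc, hjj])
      (by rw [mul_assoc, hjj])
    have h1 : κ a = j * κ a * j := by
      rw [← hone, ← hmul, ← hmul, one_mul, mul_one]
    have h2 := ha b
    rw [LinearMap.comp_apply, hmul, hb] at h2
    calc lam (κ a * x) = lam (j * (κ a * j * x)) := by
          conv_lhs => rw [h1]
          simp only [mul_assoc]
      _ = lam (κ a * j * x * j) := hsym _ _
      _ = lam (κ a * (j * x * j)) := by simp only [mul_assoc]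
      _ = 0 := h2
  · obtain ⟨s, hs⟩ : ∃ s : X.A, s = ∑ u, X.ι u := ⟨_, rfl⟩
    have hsc : ∀ y, X.ι y * s = s * X.ι y := by
      intro y
      rw [hs, Finset.mul_sum, Finset.sum_mul]
      refine Finset.sum_congr rfl fun u _ => ?_
      rw [← map_mul, ← map_mul, mul_comm]
    have h1 : lam (s * (1 - j)) = 0 := by
      refine inv_BK (ℓ := ℓ) (cj F X.ι) (lam ∘ₗ LinearMap.mulLeft F s) ⊤ (fun y _ x => ?_)
        (hV.to_subgroup _) _ hj
      change lam (s * (X.ι y * (x * X.ι y⁻¹))) = lam (s * x)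
      have h2 : s * (X.ι y * (x * X.ι y⁻¹)) = X.ι y * (s * x) * X.ι y⁻¹ := by
        rw [← mul_assoc, ← hsc]
        simp only [mul_assoc]
      rw [h2, hsym, ← mul_assoc, ← map_mul, inv_mul_cancel, map_one, one_mul]
    have h3 : κ (∑ u, Y.ι u) = s * j := by
      rw [map_sum, hs, Finset.sum_mul]
      exact Finset.sum_congr rfl fun u _ => hcov u
    rw [LinearMap.comp_apply, h3]
    rw [mul_sub, mul_one, map_sub, sub_eq_zero] at h1
    rw [← h1, hs]
    exact hnz

end Pool.Agent.PFC.H92
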