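import Pool.Agent.PFC.StmtsB4a

set_option autoImplicit false

/-!
# The projectivity test
-/

namespace Pool.Agent.PFC.H92

open MulAction

theorem prj (hpsx : PsxStmt) (hupw : UpwStmt) : PrjStmt := by
  classical
  intro ℓ _ F H M _ _ _ _ _ _ ρ X hH hab hPS hC
  obtain ⟨Ω, _, _, b, c, hfr, hst⟩ := hpsx ℓ F H M ρ X hH hab hPS
  -- all stabilisers are trivial
  have htriv : ∀ ω : Ω, stabilizer H ω = ⊥ := by
    intro ω
    by_contra hne
    refine (hst ω).2 ?_
    have hK : IsPGroup ℓ (stabilizer H ω) := hH.to_subgroup _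
    have hnt : Nontrivial (stabilizer H ω) := (Subgroup.nontrivial_iff_ne_bot _).2 hne
    obtain ⟨n, hn0, hn⟩ := hK.nontrivial_iff_card.1 hnt
    have hdvd : ℓ ∣ Nat.card (stabilizer H ω) := by
      rw [hn]
      exact dvd_pow_self ℓ hn0.ne'
    obtain ⟨x, hx⟩ := exists_prime_orderOf_dvd_card' ℓ hdvd
    have hx' : orderOf (x : H) = ℓ := by
      rw [← hx]
      exact Subgroup.orderOf_coe x
    have hle : Subgroup.zpowers (x : H) ≤ stabilizer H ω := by
      rw [Subgroup.zpowers_le]
      exact x.2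
    refine hupw ℓ F H M ρ X hPS (Subgroup.zpowers (x : H)) (stabilizer H ω) hK hle ?_
    refine hC _ ?_
    rw [Nat.card_zpowers, hx']
  let Q := Quotient (orbitRel H Ω)
  have hQ : Fintype Q := Fintype.ofFinite Q
  have hfree : ∀ (ω : Ω) (h k : H), h • ω = k • ω → h = k := by
    intro ω h k hhk
    have h1 : k⁻¹ * h ∈ stabilizer H ω := by
      rw [mem_stabilizer_iff, mul_smul, hhk, inv_smul_smul]
    rw [htriv ω, Subgroup.mem_bot] at h1
    exact (inv_mul_eq_one.1 h1).symm
  have hbij : Function.Bijective (fun z : H × Q => z.1 • (z.2.out : Ω)) := by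
    constructor
    · rintro ⟨h, q⟩ ⟨k, r⟩ hhk
      change h • q.out = k • r.out at hhk
      have h1 : q = r := by
        rw [← Quotient.out_eq q, ← Quotient.out_eq r]
        refine Quotient.sound ?_
        change (orbitRel H Ω) q.out r.out
        rw [orbitRel_apply, mem_orbit_iff]
        refine ⟨h⁻¹ * k, ?_⟩
        rw [mul_smul, ← hhk, inv_smul_smul]
      subst h1
      rw [hfree _ h k hhk]
    · intro ω
      have h1 : (orbitRel H Ω) ω (Quotient.mk (orbitRel H Ω) ω).out :=
        (orbitRel H Ω).symm (Quotient.mk_out (s := orbitRel H Ω) ω)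
      rw [orbitRel_apply, mem_orbit_iff] at h1
      obtain ⟨h, hh⟩ := h1
      exact ⟨(h, Quotient.mk (orbitRel H Ω) ω), hh⟩
  refine ⟨∑ q : Q, (c q.out).smulRight (b q.out), fun m => ?_⟩
  have h1 : ∀ h : H, ρ h ((∑ q : Q, (c q.out).smulRight (b q.out)) (ρ h⁻¹ m)) =
      ∑ q : Q, c (h • (q.out : Ω)) m • b (h • (q.out : Ω)) := by
    intro h
    rw [LinearMap.sum_apply, map_sum]
    refine Finset.sum_congr rfl fun q _ => ?_
    rw [LinearMap.smulRight_apply, map_smul, ← hfr.1]
    have h2 := hfr.2.1 h q.out (ρ h⁻¹ m)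
    have h3 : ρ h (ρ h⁻¹ m) = m := by
      rw [← Module.End.mul_apply, ← map_mul, mul_inv_cancel, map_one, Module.End.one_apply]
    rw [h3] at h2
    rw [h2]
  rw [Finset.sum_congr rfl fun h _ => h1 h, ← Fintype.sum_prod_type'
    (f := fun (h : H) (q : Q) => c (h • (q.out : Ω)) m • b (h • (q.out : Ω)))]
  exact (Fintype.sum_bijective _ hbij _ (fun ω => c ω m • b ω) fun z => rfl).trans
    (hfr.2.2 m)

end Pool.Agent.PFC.H92
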