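import Pool.Agent.PFC.StmtsB5a
import Pool.Agent.PFC.B4.Key

set_option autoImplicit false

/-!
# Squad PFC, block B5a, row QFR
-/

open scoped BigOperators

noncomputable section

namespace Pool.Agent.PFC.H92

open MulAction

section aux

variable {F V B : Type} [Field F] [CommGroup V] [Ring B] [Algebra F B]

theorem mem_tw_id (R : Subgroup V) (w : V × V) :
    w ∈ tw (MonoidHom.id V) R ↔ w.1 = w.2 ∧ w.2 ∈ R := by
  unfold tw
  rw [Subgroup.mem_map]
  constructor
  · rintro ⟨r, hr, rfl⟩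
    exact ⟨rfl, hr⟩
  · rintro ⟨h1, h2⟩
    exact ⟨w.2, h2, Prod.ext h1.symm rfl⟩

theorem bi_apply (β : V →* B) (w : V × V) (x : B) : bi F β w x = β w.1 * (x * β w.2⁻¹) := rfl

theorem cj_apply (β : V →* B) (u : V) (x : B) : cj F β u x = β u * (x * β u⁻¹) := rfl

/-- the action of `V` through the diagonal -/
abbrev dgA (V Ω : Type) [CommGroup V] [MulAction (V × V) Ω] : MulAction V Ω :=
  MulAction.compHom Ω ((MonoidHom.id V).prod (MonoidHom.id V))

/-- functionals of the points fixed by the diagonal of `P` kill the Brauer kernel -/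
theorem diag_BK {ℓ : ℕ} [Fact ℓ.Prime] [CharP F ℓ] [Finite V] {β : V →* B} {Ω : Type} [Fintype Ω]
    [MulAction (V × V) Ω] {b : Ω → B} {c : Ω → (B →ₗ[F] F)} (h : IsFr (bi F β) b c)
    (P : Subgroup V) (hP : IsPGroup ℓ P) {m : B} (hm : m ∈ BK (cj F β) P) (ω : Ω)
    (hω : ∀ g ∈ P, ((g, g) : V × V) • ω = ω) : c ω m = 0 := by
  let _ : MulAction V Ω := dgA V Ω
  have hfr : IsFr (cj F β) b c :=
    ⟨fun g ω => h.1 (g, g) ω, fun g ω m => h.2.1 (g, g) ω m, h.2.2⟩
  exact frame_BK (ℓ := ℓ) hfr P hP hm ω hω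

/-- the Brauer kernel in terms of the frame for the two-sided action -/
theorem diag_iff {ℓ : ℕ} [Fact ℓ.Prime] [CharP F ℓ] [Finite V] {β : V →* B} {Ω : Type} [Fintype Ω]
    [MulAction (V × V) Ω] {b : Ω → B} {c : Ω → (B →ₗ[F] F)} (h : IsFr (bi F β) b c)
    (P : Subgroup V) (hP : IsPGroup ℓ P) {m : B} (hm : m ∈ Fx (cj F β) P) :
    m ∈ BK (cj F β) P ↔ ∀ ω, (∀ g ∈ P, ((g, g) : V × V) • ω = ω) → c ω m = 0 := by
  let _ : MulAction V Ω := dgA V Ω
  have hfr : IsFr (cj F β) b c :=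
    ⟨fun g ω => h.1 (g, g) ω, fun g ω m => h.2.1 (g, g) ω m, h.2.2⟩
  exact frame_iff (ℓ := ℓ) hfr P hP hm

end aux

theorem qfr : B5a.QfrStmt := by
  intro ℓ _ F V B _ _ _ _ _ _ _ β lam c' hV hfrm hc' hPS htp
  classical
  obtain ⟨hsym, hnd, hnz⟩ := hfrm
  -- the map `E`
  obtain ⟨E, hE⟩ : ∃ E : B →ₗ[F] B, ∀ x, E x = B5a.Ee F β lam x := by
    refine ⟨∑ g, (lam ∘ₗ LinearMap.mulLeft F (β g⁻¹)).smulRight (β g), fun x => ?_⟩
    rw [LinearMap.sum_apply]
    rfl
  have hEx : ∀ x, E x = ∑ g, lam (β g⁻¹ * x) • β g := fun x => hE x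
  have hEl : ∀ u x, E (β u * x) = β u * E x := by
    intro u x
    rw [hEx, hEx, Finset.mul_sum]
    refine (Fintype.sum_bijective (fun g => u * g) (Group.mulLeft_bijective u) _ _ fun g => ?_).symm
    rw [mul_smul_comm, ← map_mul, ← mul_assoc, ← map_mul]
    congr 4
    group
  have hEr : ∀ u x, E (x * β u) = E x * β u := by
    intro u x
    rw [hEx, hEx, Finset.sum_mul]
    refine (Fintype.sum_bijective (fun g => g * u) (Group.mulRight_bijective u) _ _ fun g => ?_).symm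
    have h1 : lam (β (g * u)⁻¹ * (x * β u)) = lam (β g⁻¹ * x) := by
      rw [← mul_assoc, hsym, ← mul_assoc, ← map_mul]
      congr 3
      group
    rw [smul_mul_assoc, ← map_mul, h1]
  -- the span
  obtain ⟨S, hS⟩ : ∃ S : Submodule F B, S = Submodule.span F (Set.range β) := ⟨_, rfl⟩
  have hEs : ∀ s ∈ S, ∀ x, E (x * s) = E x * s := by
    intro s hs x
    rw [hS] at hs
    induction hs using Submodule.span_induction with
    | mem y hy =>
      obtain ⟨u, rfl⟩ := hy
      exact hEr u x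
    | zero => rw [mul_zero, mul_zero, map_zero]
    | add a b _ _ ha hb => rw [mul_add, map_add, ha, hb, mul_add]
    | smul r a _ ha => rw [mul_smul_comm, map_smul, ha, mul_smul_comm]
  have hEs' : ∀ s ∈ S, ∀ x, E (s * x) = s * E x := by
    intro s hs x
    rw [hS] at hs
    induction hs using Submodule.span_induction with
    | mem y hy =>
      obtain ⟨u, rfl⟩ := hy
      exact hEl u x
    | zero => rw [zero_mul, zero_mul, map_zero]
    | add a b _ _ ha hb => rw [add_mul, map_add, ha, hb, add_mul]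
    | smul r a _ ha => rw [smul_mul_assoc, map_smul, ha, smul_mul_assoc]
  have hES : ∀ x, E x ∈ S := by
    intro x
    rw [hEx, hS]
    exact Submodule.sum_mem _ fun g _ => Submodule.smul_mem _ _ (Submodule.subset_span ⟨g, rfl⟩)
  have hc'S : c' ∈ S := by
    rw [hS]
    exact hc'.spn
  have hEc' : E c' = 1 := by
    have h1 := hEs c' hc'S 1
    rw [one_mul] at h1
    rw [h1, hE]
    exact hc'.rin
  have hcom : ∀ g, c' * β g = β g * c' := hc'.com
  -- the projection
  obtain ⟨q, hq⟩ : ∃ q : B →ₗ[F] B, ∀ x, q x = x - E x * c' :=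
    ⟨LinearMap.id - (LinearMap.mulRight F c') ∘ₗ E, fun x => rfl⟩
  have hqbi : ∀ w x, q (bi F β w x) = bi F β w (q x) := by
    intro w x
    rw [hq, hq, bi_apply, bi_apply, hEl, hEr, sub_mul, mul_sub]
    congr 1
    rw [mul_assoc, mul_assoc, mul_assoc, hcom]
  have hqcj : ∀ u x, q (cj F β u x) = cj F β u (q x) := fun u x => hqbi (u, u) x
  have hqβ : ∀ u, q (β u) = 0 := by
    intro u
    rw [hq]
    have h1 := hEl u 1
    rw [mul_one] at h1
    rw [h1, mul_assoc, hE, hc'.rin, mul_one, sub_self]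
  have hEE : ∀ x, E (E x * c') = E x := by
    intro x
    rw [hEs' _ (hES x), hEc', mul_one]
  have hqq : ∀ x, q (q x) = q x := by
    intro x
    rw [hq (q x)]
    have h1 : E (q x) = 0 := by rw [hq, map_sub, hEE, sub_self]
    rw [h1, zero_mul, sub_zero]
  -- the Brauer kernel is stable
  have hqBK : ∀ m ∈ BK (cj F β) ⊤, q m ∈ BK (cj F β) ⊤ := by
    intro m hm
    unfold BK at hm
    induction hm using Submodule.span_induction with
    | mem n hn =>
      obtain ⟨P', T, x, hlt, hT, hx, rfl⟩ := hn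
      rw [map_sum]
      refine Submodule.subset_span ⟨P', T, q x, hlt, hT, ?_, ?_⟩
      · intro h hh
        rw [← hqcj, hx h hh]
      · exact Finset.sum_congr rfl fun y _ => hqcj y x
    | zero => rw [map_zero]; exact Submodule.zero_mem _
    | add a b _ _ ha hb => rw [map_add]; exact Submodule.add_mem _ ha hb
    | smul r a _ ha => rw [map_smul]; exact Submodule.smul_mem _ _ ha
  obtain ⟨Ω, hΩ, hact, b, c, hfr, hst⟩ := hPS
  have hPtop : IsPGroup ℓ (⊤ : Subgroup V) := hV.to_subgroup _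
  -- the points fixed by the diagonal
  have hkill : ∀ ω ω' : Ω, (∀ g : V, ((g, g) : V × V) • ω = ω) →
      (∀ g : V, ((g, g) : V × V) • ω' = ω') → c ω' (q (b ω)) = 0 := by
    intro ω ω' h h'
    have h1 : b ω ∈ Fx (cj F β) ⊤ := by
      intro u _
      have h2 := hfr.1 (u, u) ω
      rw [h u] at h2
      exact h2.symm
    obtain ⟨k, hk⟩ := htp.span _ h1
    have h2 : q (b ω) = q (b ω - ∑ u, k u • β u) := by
      rw [map_sub, map_sum, Finset.sum_eq_zero (s := Finset.univ) (f := fun u => q (k u • β u)),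
        sub_zero]
      intro u _
      rw [map_smul, hqβ, smul_zero]
    rw [h2]
    exact diag_BK (ℓ := ℓ) hfr ⊤ hPtop (hqBK _ hk) ω' fun g _ => h' g
  have hfix : ∀ (w : V × V) (ω : Ω), (∀ g : V, ((g, g) : V × V) • w • ω = w • ω) ↔
      ∀ g : V, ((g, g) : V × V) • ω = ω := by
    intro w ω
    have h1 : ∀ g : V, ((g, g) : V × V) • w • ω = w • ((g, g) : V × V) • ω := by
      intro g
      rw [smul_smul, smul_smul, mul_comm]
    constructor
    · intro h g
      have h2 := h g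
      rw [h1] at h2
      exact smul_left_cancel w h2
    · intro h g
      rw [h1, h g]
  -- the new set
  let Ω₂ := {p : Ω × Ω // ¬ ((∀ g : V, ((g, g) : V × V) • p.1 = p.1) ∧
    ∀ g : V, ((g, g) : V × V) • p.2 = p.2)}
  let fΩ : Fintype Ω₂ := Fintype.ofFinite Ω₂
  let aΩ : MulAction (V × V) Ω₂ :=
    { smul := fun w p => ⟨(w • p.1.1, w • p.1.2), fun h => p.2
        ⟨(hfix w _).1 h.1, (hfix w _).1 h.2⟩⟩
      one_smul := fun p => Subtype.ext (Prod.ext (one_smul _ _) (one_smul _ _))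
      mul_smul := fun v w p => Subtype.ext (Prod.ext (mul_smul v w _) (mul_smul v w _)) }
  have hsm : ∀ (w : V × V) (p : Ω₂), ((w • p : Ω₂) : Ω × Ω) = (w • p.1.1, w • p.1.2) :=
    fun w p => rfl
  refine ⟨q, fun x => by rw [hq, hE], hqq, Ω₂, fΩ, aΩ, fun p => c p.1.2 (q (b p.1.1)) • b p.1.2,
    fun p => c p.1.1 ∘ₗ q, ?_, ?_, ?_, ?_⟩
  · intro w p
    change c (w • p.1.2) (q (b (w • p.1.1))) • b (w • p.1.2) = _
    rw [hfr.1, hfr.1, hqbi, hfr.2.1, map_smul]
  · intro w p x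
    change c (w • p.1.1) (q (bi F β w x)) = c p.1.1 (q x)
    rw [hqbi, hfr.2.1]
  · intro x
    change ∑ p : Ω₂, c p.1.1 (q x) • c p.1.2 (q (b p.1.1)) • b p.1.2 = q x
    have h1 : ∑ p : Ω₂, c p.1.1 (q x) • c p.1.2 (q (b p.1.1)) • b p.1.2 =
        ∑ p : Ω × Ω, c p.1 (q x) • c p.2 (q (b p.1)) • b p.2 := by
      have h2 := Finset.sum_subtype (p := fun p : Ω × Ω =>
          ¬ ((∀ g : V, ((g, g) : V × V) • p.1 = p.1) ∧ ∀ g : V, ((g, g) : V × V) • p.2 = p.2))
        (F := fΩ) (Finset.univ.filter fun p : Ω × Ω =>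
          ¬ ((∀ g : V, ((g, g) : V × V) • p.1 = p.1) ∧ ∀ g : V, ((g, g) : V × V) • p.2 = p.2))
        (fun p => by rw [Finset.mem_filter]; exact ⟨fun h => h.2, fun h => ⟨Finset.mem_univ _, h⟩⟩)
        (fun p : Ω × Ω => c p.1 (q x) • c p.2 (q (b p.1)) • b p.2)
      refine h2.symm.trans (Finset.sum_subset (Finset.filter_subset _ _) ?_)
      intro p _ hp
      rw [Finset.mem_filter, not_and, not_not] at hp
      obtain ⟨h3, h4⟩ := hp (Finset.mem_univ _)
      rw [hkill p.1 p.2 h3 h4, zero_smul, smul_zero]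
    rw [h1, Fintype.sum_prod_type]
    have h2 : ∀ ω : Ω, ∑ ω' : Ω, c ω (q x) • c ω' (q (b ω)) • b ω' = q (c ω (q x) • b ω) := by
      intro ω
      rw [← Finset.smul_sum, hfr.2.2, map_smul]
    rw [Finset.sum_congr rfl fun ω _ => h2 ω, ← map_sum, hfr.2.2, hqq]
  · rintro ⟨⟨ω, ω'⟩, hp⟩
    obtain ⟨R, hR⟩ := hst ω
    obtain ⟨R', hR'⟩ := hst ω'
    refine ⟨R ⊓ R', ?_, ?_⟩
    · intro htop
      apply hp
      have h1 : R = ⊤ := eq_top_iff.2 (htop ▸ inf_le_left)
      have h2 : R' = ⊤ := eq_top_iff.2 (htop ▸ inf_le_right)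
      constructor
      · intro g
        have h3 : ((g, g) : V × V) ∈ stabilizer (V × V) ω := by
          rw [hR, mem_tw_id, h1]
          exact ⟨rfl, Subgroup.mem_top _⟩
        exact mem_stabilizer_iff.1 h3
      · intro g
        have h3 : ((g, g) : V × V) ∈ stabilizer (V × V) ω' := by
          rw [hR', mem_tw_id, h2]
          exact ⟨rfl, Subgroup.mem_top _⟩
        exact mem_stabilizer_iff.1 h3
    · ext w
      have h1 : w ∈ stabilizer (V × V) ω ↔ w ∈ tw (MonoidHom.id V) R := by rw [hR]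
      have h2 : w ∈ stabilizer (V × V) ω' ↔ w ∈ tw (MonoidHom.id V) R' := by rw [hR']
      rw [mem_stabilizer_iff, mem_tw_id] at h1 h2
      rw [mem_stabilizer_iff, mem_tw_id, Subgroup.mem_inf, Subtype.ext_iff, hsm]
      rw [Prod.ext_iff]
      constructor
      · rintro ⟨h3, h4⟩
        exact ⟨(h1.1 h3).1, (h1.1 h3).2, (h2.1 h4).2⟩
      · rintro ⟨h3, h4, h5⟩
        exact ⟨h1.2 ⟨h3, h4⟩, h2.2 ⟨h3, h5⟩⟩

end Pool.Agent.PFC.H92
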