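import Pool.Agent.PFC.StmtsB7
import Pool.Agent.Helper66_WAT.FNW

/-!
# Squad PFC, row FNC
-/

open scoped BigOperators

set_option autoImplicit false

noncomputable section

namespace Pool.Agent.PFC.H92

open Pool.Agent.Helper51_AWC Pool.Agent.Helper79_WRA Pool.Agent.PP Pool.Agent.PP.KF
open Pool.Agent.PP.K9 Pool.Agent.PP.K9.H97 Pool.Agent.PP.H75 Pool.Agent.PP.T3 Pool.Agent.PP.T2
open Pool.Agent.PP.T5 Pool.Agent.PP.TB Pool.Agent.PP.TV Pool.Agent.PP.TX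
open Pool.Agent.PP.T8 (Fq Fr In Iq)

attribute [local instance] Ideal.Quotient.field

/-- row FNC -/
theorem fnc (hTya : TyaStmt) (hCyq : CyqStmt) (hClv : TV.ClvStmt) (hF : T3.FltStmt)
    (hZ : T2.DzaStmt) (hQ : T8.Qt3Stmt) (hInx : K9.InxStmt) : FncStmt := by
  intro ℓ hfact M _ hM hℓ2 G _ _ hc χ hχ D hD hDO hab θ hθ hcy hfr
  have hℓ := hfact.out
  have hGF : GoodF ℓ (FF M) := H50.fld ℓ hℓ M hM
  have hn : (opCore ℓ G).Normal := H75.opCore_normal (A := G) ℓ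
  obtain ⟨e, γ, γ', hγ, hTg, hV', -, hFq, hne, hcop, -, hfin⟩ :=
    TV.H66.core hF hZ hQ hInx ℓ M hM G hc χ hχ D hD hab θ hθ (G ⧸ opCore ℓ G)
      (QuotientGroup.mk' (opCore ℓ G)) (QuotientGroup.mk'_surjective _)
      (QuotientGroup.ker_mk' _)
  apply hfin
  -- facts about the inertial group
  have hVD : Vc D γ ≤ Dc M D θ := by
    unfold Vc
    rw [Subgroup.commutator_le]
    intro t ht d hd
    refine Subgroup.subset_closure ⟨t, ?_, d, hd, rfl⟩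
    rw [← hTg]
    exact ht
  have hmemT : ∀ t, t ∈ Tg D γ ↔ t ∈ Iner M D θ := by
    intro t
    rw [← hTg]
    rfl
  have hFc : Fc D γ := fun t ht v hv hv1 hcom => hfr t ((hmemT t).1 ht) v (hVD hv) hv1 hcom
  have hCy : Cy D γ := by
    obtain ⟨t, ht, h⟩ := hcy
    exact ⟨t, (hmemT t).2 ht, fun x hx => h x ((hmemT x).1 hx)⟩
  have hFc' := (hClv ℓ (FF M) hGF G _ e D γ _ _ γ' hγ hV' hcop hFq).2.1 hFc
  have hCy' := hCyq (FF M) G _ D γ _ γ' hFq hCy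
  -- the exponent
  obtain ⟨V', hVV⟩ : ∃ V' : Subgroup (G ⧸ opCore ℓ G),
      V' = D.map (QuotientGroup.mk' (opCore ℓ G)) := ⟨_, rfl⟩
  obtain ⟨a₀, ha₀⟩ : ∃ a₀ : ℕ, Monoid.exponent V' = ℓ ^ a₀ := by
    have hpg : IsPGroup ℓ V' := by rw [hVV]; exact hV'.tp.pg
    obtain ⟨n, hn⟩ := IsPGroup.iff_card.1 hpg
    have h1 : Monoid.exponent V' ∣ ℓ ^ n := by
      rw [← hn]
      exact Group.exponent_dvd_nat_card
    obtain ⟨k, -, hk⟩ := (Nat.dvd_prime_pow hℓ).1 h1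
    exact ⟨k, hk⟩
  have ha : 0 < a₀ := by
    rcases Nat.eq_zero_or_pos a₀ with h0 | h0
    · exfalso
      apply hne hDO
      rw [← hVV, Subgroup.eq_bot_iff_forall]
      intro x hx
      have h1 : (⟨x, hx⟩ : V') ^ Monoid.exponent V' = 1 := Monoid.pow_exponent_eq_one _
      rw [ha₀, h0, pow_zero, pow_one] at h1
      exact congrArg Subtype.val h1
    · exact h0
  exact hTya ℓ M hM hℓ2 _ _ _ γ' hV' a₀ ha (hVV ▸ ha₀) hFc' hCy'

end Pool.Agent.PFC.H92
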